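import Pool.Agent.Lib.MP_859dd5_ag.S.Stm

/-!
# Products of Artin-Schreier curves: definitions for the statements
-/

namespace UnrA.Fer

open UnrG

universe u v w z

open Polynomial Finset
open scoped Classical

/-- The polynomial `g` is of the form `X R(X) + l X + e`, where `R = ∑_{i ≤ h} r_i X ^ (p ^ i)` is an
additive polynomial of degree `p ^ h` with `h ≤ M`, and `h > 0` if `p = 2`. -/
def IsAdditiveForm (p M : ℕ) {k : Type u} [Field k] (g : k[X]) : Prop :=
  ∃ (h : ℕ) (r : ℕ → k) (l e : k), h ≤ M ∧ (p = 2 → 0 < h) ∧ r h ≠ 0 ∧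
    g = X * ∑ i ∈ range (h + 1), C (r i) * X ^ p ^ i + C l * X + C e

/-- `L` is the function field of the product over `k` of the curves
`y_j ^ p - y_j = a_j x_j ^ N + b_j` and of the curves `t_j ^ p - t_j = g_j(s_j)`, where `g_j` is an
additive form (`IsAdditiveForm`). -/
structure IsASProduct (p N M : ℕ) {k L : Type u} [Field k] [Field L] [Algebra k L]
    {n n' : ℕ} (a b : Fin n → k) (g : Fin n' → k[X]) (x y : Fin n → L) (s t : Fin n' → L) :
    Prop where
  ne : ∀ j, a j ≠ 0
  equation : ∀ j, y j ^ p - y j = algebraMap k L (a j) * x j ^ N + algebraMap k L (b j)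
  form : ∀ j, IsAdditiveForm p M (g j)
  equation_add : ∀ j, t j ^ p - t j = aeval (s j) (g j)
  independent : AlgebraicIndependent k (Sum.elim x s)
  generate : IntermediateField.adjoin k
    (Set.range x ∪ Set.range y ∪ Set.range s ∪ Set.range t) = ⊤

/-- The subfield of `L` generated over `k` by the `x_j ^ N`, the `s_j`, by `∏ x_j ^ (c_j)` and by
`∑ d_j y_j + ∑ d'_j t_j`. -/
def mixField (k : Type u) {L : Type u} [Field k] [Field L] [Algebra k L] {p N n n' : ℕ}
    (x y : Fin n → L) (s t : Fin n' → L) (c : Fin n → ZMod N) (d : Fin n → ZMod p)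
    (d' : Fin n' → ZMod p) : IntermediateField k L :=
  IntermediateField.adjoin k (Set.range (fun j => x j ^ N) ∪ Set.range s ∪
    {∏ j, x j ^ (c j).val, ∑ j, ((d j).val : L) * y j + ∑ j, ((d' j).val : L) * t j})

/-- Some endomorphism `x_j ↦ ζ ^ (γ_j) x_j`, `y_j ↦ y_j + τ_j`, `s_j ↦ s_j`, `t_j ↦ t_j + τ'_j` of `L`
over `k` and `K` moves `∏ x_j ^ (c_j)` or `∑ d_j y_j + ∑ d'_j t_j`. -/
def IsShifted {k L : Type u} (K : Type u) [Field k] [Field K] [Field L] [Algebra k L]
    [Algebra K L] {p N n n' : ℕ} (ζ : k) (x y : Fin n → L) (s t : Fin n' → L)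
    (c : Fin n → ZMod N) (d : Fin n → ZMod p) (d' : Fin n' → ZMod p) : Prop :=
  ∃ (γ : Fin n → ZMod N) (τ : Fin n → ZMod p) (τ' : Fin n' → ZMod p) (f : L →+* L),
    (∀ z : k, f (algebraMap k L z) = algebraMap k L z) ∧
    (∀ z : K, f (algebraMap K L z) = algebraMap K L z) ∧
    (∀ j, f (x j) = algebraMap k L ζ ^ (γ j).val * x j) ∧
    (∀ j, f (y j) = y j + ((τ j).val : L)) ∧ (∀ j, f (s j) = s j) ∧
    (∀ j, f (t j) = t j + ((τ' j).val : L)) ∧
    (∑ j, c j * γ j ≠ 0 ∨ ∑ j, d j * τ j + ∑ j, d' j * τ' j ≠ 0)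

/-- The field `k` has an extension `k' = κ(t_1, …, t_r)` of degree `h` such that `h!` divides `H`,
the element `δ` of `k` is an `N`-th power in `k'` and the element `d` of `k` is of the form
`e ^ p - e` in `k'`. -/
def IsTrivialIn (κ k : Type u) [Field κ] [Field k] (p N H : ℕ) (δ d : k) : Prop :=
  ∃ (k' : Type u) (_ : Field k') (_ : Algebra k k') (_ : Algebra κ k')
    (_ : FiniteDimensional k k') (r : ℕ) (t : Fin r → k') (β e : k'),
    (Module.finrank k k').factorial ∣ H ∧ AlgebraicIndependent κ t ∧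
      IntermediateField.adjoin κ (Set.range t) = ⊤ ∧ algebraMap k k' δ = β ^ N ∧
      algebraMap k k' d = e ^ p - e

/-- Two of the exponents are nonzero, and the negative of their quotient is a power of `p`, or
`-1` is a power of `p`. -/
def HasTwistedPair (p : ℕ) {N n : ℕ} (c : Fin n → ZMod N) : Prop :=
  ∃ i j, i ≠ j ∧ c i ≠ 0 ∧ c j ≠ 0 ∧
    ∃ s : ℕ, (p : ZMod N) ^ s = -1 ∨ c j = -((p : ZMod N) ^ s * c i)

/-- Two of the exponents `c`, `d'` belong to supersingular curves (all curves of the second kind, and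
the curves of the first kind if `-1` is a power of `p` modulo `N`), or `c` has a twisted pair. -/
def HasPair (p : ℕ) {N n n' : ℕ} (c : Fin n → ZMod N) (d' : Fin n' → ZMod p) : Prop :=
  HasTwistedPair p c ∨ (∃ i j, i ≠ j ∧ d' i ≠ 0 ∧ d' j ≠ 0) ∨
    ∃ i j, c i ≠ 0 ∧ d' j ≠ 0 ∧ ∃ s : ℕ, (p : ZMod N) ^ s = -1

/-! ### Auxiliary definitions -/

/-- A family of curves `y_j ^ p - y_j = a_j x_j ^ N + b_j` over `k` in `L`. -/
structure IsASFamily (p N : ℕ) {k L : Type u} [Field k] [Field L] [Algebra k L]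
    {n : ℕ} (a b : Fin n → k) (x y : Fin n → L) : Prop where
  ne : ∀ j, a j ≠ 0
  equation : ∀ j, y j ^ p - y j = algebraMap k L (a j) * x j ^ N + algebraMap k L (b j)
  independent : AlgebraicIndependent k x

/-- The subfield of `L` generated over `k` by the `x_j ^ N`, by `∏ x_j ^ (c_j)` and by
`∑ d_j y_j`. -/
def asField (k : Type u) {L : Type u} [Field k] [Field L] [Algebra k L] {p N n : ℕ}
    (x y : Fin n → L) (c : Fin n → ZMod N) (d : Fin n → ZMod p) : IntermediateField k L :=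
  IntermediateField.adjoin k
    (Set.range (fun j => x j ^ N) ∪ {∏ j, x j ^ (c j).val, ∑ j, ((d j).val : L) * y j})

end UnrA.Fer
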